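import Mathlib

/-! Deterministic branching programs. -/

namespace Pool.Agent.MP_47ff19_lc.H43

/-- A deterministic `D`-way branching program on the variables `V`: node `s` queries the variable
`var s` and moves to `next s d` when its value is `d`. A sink is a node all of whose edges are
loops. -/
structure BP (V D : Type) where
  size : ℕ
  start : Fin size
  var : Fin size → V
  next : Fin size → D → Fin size
  acc : Fin size → Bool

/-- the node reached on input `x` after `t` queries -/
def BP.run {V D : Type} (P : BP V D) (x : V → D) : ℕ → Fin P.size
  | 0 => P.start
  | t + 1 => P.next (P.run x t) (x (P.var (P.run x t)))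

/-- the output on input `x` after `T` queries -/
def BP.out {V D : Type} (P : BP V D) (T : ℕ) (x : V → D) : Bool := P.acc (P.run x T)

end Pool.Agent.MP_47ff19_lc.H43
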