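import Pool.Agent.MP_47ff19_lc.Mg.H43_EDMain

namespace Pool.Agent.Results.MP_47ff19_lc.TimeSpaceDistinct

open Finset Pool.Agent.MP_47ff19_lc.H43

/-- Element distinctness on `n` elements of a domain of size `d ≥ n ^ 2 / S`: every `d`-way
branching program with at most `2 ^ S` nodes that after `T` queries accepts only inputs with
distinct entries, and at least a fraction `2 ^ (-S)` of them, has
`T ≥ c n log (n / S) / log log (n / S)`. -/
theorem result : ∃ c : ℝ, 0 < c ∧ ∃ C : ℕ, ∀ (n d S T : ℕ) (B : BP (Fin n) (Fin d)),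
    1 ≤ S → C * S ≤ n → n ^ 2 ≤ d * S → B.size ≤ 2 ^ S →
    (∀ x, B.out T x = true → Function.Injective x) →
    #{x : Fin n → Fin d | Function.Injective x} ≤ 2 ^ S * #{x | B.out T x = true} →
    c * n * Real.log ((n : ℝ) / S) / Real.log (Real.log ((n : ℝ) / S)) ≤ T :=
  ed_main

end Pool.Agent.Results.MP_47ff19_lc.TimeSpaceDistinct
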